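import Pool.Agent.H664.QK.Stm

/-!
Job STEP of project QK of helper664.
-/

set_option autoImplicit false

namespace Pool.Agent.H27.QK

open MvPolynomial Cardinal
open Pool.Agent.H664.QK

/-! ### The relative algebraic closure -/

theorem mem_acl {K : Subfield ℂ} {S : Set ℂ} {z : ℂ} :
    z ∈ acl K S ↔ IsAlgebraic (IntermediateField.adjoin K S) z := by
  show z ∈ algebraicClosure (IntermediateField.adjoin K S) ℂ ↔ _
  exact mem_algebraicClosure_iff

theorem sub_acl {K : Subfield ℂ} {S : Set ℂ} {z : ℂ} (h : z ∈ IntermediateField.adjoin K S) :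
    z ∈ acl K S := by
  rw [mem_acl]
  exact isAlgebraic_algebraMap (⟨z, h⟩ : IntermediateField.adjoin K S)

theorem K_acl {K : Subfield ℂ} {S : Set ℂ} {z : ℂ} (h : z ∈ K) : z ∈ acl K S :=
  sub_acl ((IntermediateField.adjoin K S).algebraMap_mem (⟨z, h⟩ : K))

theorem S_acl {K : Subfield ℂ} {S : Set ℂ} {z : ℂ} (h : z ∈ S) : z ∈ acl K S :=
  sub_acl (IntermediateField.subset_adjoin K S h)

theorem acl_closed {K : Subfield ℂ} {S : Set ℂ} {z : ℂ} (h : IsAlgebraic (acl K S) z) :
    z ∈ acl K S := by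
  rw [mem_acl]
  have h1 : IsAlgebraic (algebraicClosure (IntermediateField.adjoin K S) ℂ) z := h
  exact h1.restrictScalars _

open scoped IntermediateField.algebraAdjoinAdjoin in
theorem mem_acl_iff_closure {K : Subfield ℂ} {S : Set ℂ} {z : ℂ} :
    z ∈ acl K S ↔ z ∈ (AlgebraicIndependent.matroid K ℂ).closure S := by
  rw [mem_acl, AlgebraicIndependent.matroid_closure_eq]
  rw [← IsFractionRing.isAlgebraic_iff (Algebra.adjoin K S) (IntermediateField.adjoin K S) ℂ]
  rfl

/-! ### The transcendence degree -/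

theorem tr_iff {K : Subfield ℂ} {ι : Type} (w : ι → ℂ) (d : ℕ) :
    Tr K w d ↔ (d : ℕ∞) ≤ (AlgebraicIndependent.matroid K ℂ).eRk (Set.range w) := by
  classical
  rw [Matroid.le_eRk_iff]
  constructor
  · rintro ⟨J, hJ, hi⟩
    have h1 : (AlgebraicIndependent.matroid K ℂ).Indep (Set.range fun j : J => w j) := by
      rw [AlgebraicIndependent.matroid_indep_iff]
      exact hi.to_subtype_range
    have h2 : (Set.range fun j : J => w j) ⊆ Set.range w := by
      rintro _ ⟨j, rfl⟩
      exact ⟨j, rfl⟩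
    refine ⟨_, h2, h1, ?_⟩
    rw [← Set.image_univ, hi.injective.encard_image, Set.encard_univ]
    simp [hJ]
  · rintro ⟨I, hI, hind, hc⟩
    have hfin : I.Finite := Set.finite_of_encard_eq_coe hc
    rw [AlgebraicIndependent.matroid_indep_iff] at hind
    rcases isEmpty_or_nonempty ι with hE | hne
    · have hI0 : I = ∅ := by
        refine Set.eq_empty_of_forall_notMem fun z hz => ?_
        obtain ⟨j, _⟩ := hI hz
        exact hE.elim j
      rw [hI0, Set.encard_empty] at hc
      have hd : d = 0 := by exact_mod_cast hc.symm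
      refine ⟨∅, by simp [hd], ?_⟩
      exact (algebraicIndependent_empty_type_iff).2 (algebraMap K ℂ).injective
    have hI' : ∀ z ∈ I, ∃ j, w j = z := fun z hz => hI hz
    choose! f hf using hI'
    have hinj : Set.InjOn f I := fun x hx y hy h => by rw [← hf x hx, ← hf y hy, h]
    refine ⟨hfin.toFinset.image f, ?_, ?_⟩
    · rw [Finset.card_image_of_injOn (by simpa using hinj)]
      rw [hfin.encard_eq_coe_toFinset_card] at hc
      exact_mod_cast hc
    · have hmem : ∀ j : (hfin.toFinset.image f : Finset ι), w j ∈ I ∧ f (w j) = (j : ι) := by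
        intro j
        obtain ⟨x, hx, hxj⟩ := Finset.mem_image.1 j.2
        have hx' : x ∈ I := hfin.mem_toFinset.1 hx
        have e : w j = x := by rw [← hxj]; exact hf x hx'
        rw [e]
        exact ⟨hx', hxj⟩
      let g : {x // x ∈ hfin.toFinset.image f} → I := fun j => ⟨w j, (hmem j).1⟩
      have hg : Function.Injective g := by
        intro j j' h
        have h' : w j = w j' := congrArg Subtype.val h
        apply Subtype.ext
        rw [← (hmem j).2, ← (hmem j').2, h']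
      exact AlgebraicIndependent.comp hind g hg

theorem eRk_le_of_subset {K : Subfield ℂ} {S T : Set ℂ} (h : S ⊆ (acl K T : Set ℂ)) :
    (AlgebraicIndependent.matroid K ℂ).eRk S ≤ (AlgebraicIndependent.matroid K ℂ).eRk T := by
  rw [← Matroid.eRk_closure_eq _ T]
  exact Matroid.eRk_mono _ fun z hz => mem_acl_iff_closure.1 (h hz)

/-! ### Extension of isomorphisms -/

theorem alg_mono {A B : Subfield ℂ} (h : A ≤ B) {z : ℂ} (hz : IsAlgebraic A z) :
    IsAlgebraic B z := by
  obtain ⟨p, hp, hz⟩ := hz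
  refine ⟨p.map (Subfield.inclusion h), ?_, ?_⟩
  · exact (Polynomial.map_ne_zero_iff (Subfield.inclusion h).injective).2 hp
  · rw [Polynomial.aeval_def, Polynomial.eval₂_map]
    exact hz

/-- the algebra of polynomials in `x` -/
noncomputable abbrev pa {E L : Subfield ℂ} (h : E ≤ L) (x : L) : Polynomial E →+* L :=
  Polynomial.eval₂RingHom (Subfield.inclusion h) x

theorem pa_coe {E L : Subfield ℂ} (h : E ≤ L) (x : L) (p : Polynomial E) :
    (pa h x p : ℂ) = Polynomial.aeval (x : ℂ) p := by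
  show L.subtype (Polynomial.eval₂ (Subfield.inclusion h) x p) = _
  rw [Polynomial.hom_eval₂]
  rfl

theorem isAlgClosed_of {L : Subfield ℂ} (h : ∀ z : ℂ, IsAlgebraic L z → z ∈ L) :
    IsAlgClosed L := by
  refine IsAlgClosed.of_exists_root L fun p hp hirr => ?_
  obtain ⟨z, hz⟩ := IsAlgClosed.exists_aeval_eq_zero ℂ p
    (Polynomial.degree_pos_of_irreducible hirr).ne'
  have h1 : z ∈ L := h z ⟨p, hirr.ne_zero, hz⟩
  refine ⟨⟨z, h1⟩, ?_⟩
  have h2 : L.subtype (Polynomial.eval (⟨z, h1⟩ : L) p) = 0 := by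
    rw [← Polynomial.eval₂_at_apply]
    exact hz
  exact L.subtype_injective (by rw [h2, map_zero])

theorem ext_iso0 {E E' L L' : Subfield ℂ} (h : E ≤ L) (h' : E' ≤ L') (σ : E ≃+* E') (x : L)
    (x' : L') (hL : ∀ z : ℂ, IsAlgebraic L z → z ∈ L) (hL' : ∀ z : ℂ, IsAlgebraic L' z → z ∈ L')
    (ha : ∀ z ∈ L, IsAlgebraic (Algebra.adjoin E {(x : ℂ)}) z)
    (ha' : ∀ z ∈ L', IsAlgebraic (Algebra.adjoin E' {(x' : ℂ)}) z)
    (hx : Transcendental E (x : ℂ)) (hx' : Transcendental E' (x' : ℂ)) :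
    ∃ τ : L ≃+* L', (∀ c : E, τ (Subfield.inclusion h c) = Subfield.inclusion h' (σ c)) ∧
      τ x = x' := by
  -- the algebras
  have key : ∀ {E L : Subfield ℂ} (h : E ≤ L) (x : L) (_ : ∀ z : ℂ, IsAlgebraic L z → z ∈ L)
      (_ : ∀ z ∈ L, IsAlgebraic (Algebra.adjoin E {(x : ℂ)}) z)
      (_ : Transcendental E (x : ℂ)), Function.Injective (pa h x) ∧
      (letI := (pa h x).toAlgebra; Algebra.IsAlgebraic (Polynomial E) L) := by
    intro E L h x hL ha hx
    constructor
    · rw [injective_iff_map_eq_zero]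
      intro p hp
      by_contra hp0
      refine hx ⟨p, hp0, ?_⟩
      rw [← pa_coe h x, hp]
      rfl
    · letI := (pa h x).toAlgebra
      refine ⟨fun y => ?_⟩
      have h1 := ha y y.2
      have hmem : ∀ p : Polynomial E, Polynomial.aeval (x : ℂ) p ∈
          Algebra.adjoin E {(x : ℂ)} := fun p => by
        rw [Algebra.adjoin_singleton_eq_range_aeval]
        exact ⟨p, rfl⟩
      let f : Polynomial E →+* Algebra.adjoin E {(x : ℂ)} :=
        ((Polynomial.aeval (x : ℂ)).codRestrict _ hmem).toRingHom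
      refine IsAlgebraic.of_ringHom_of_comp_eq (g := L.subtype) (f := f) h1 ?_
        L.subtype_injective ?_
      · rintro ⟨z, hz⟩
        have hz' := hz
        rw [Algebra.adjoin_singleton_eq_range_aeval] at hz'
        obtain ⟨p, hp⟩ := hz'
        exact ⟨p, Subtype.ext hp⟩
      · refine RingHom.ext fun p => ?_
        exact (pa_coe h x p).symm
  obtain ⟨i1, i2⟩ := key h x hL ha hx
  obtain ⟨j1, j2⟩ := key h' x' hL' ha' hx'
  let a1 : Algebra (Polynomial E) L := (pa h x).toAlgebra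
  let a2 : Algebra (Polynomial E') L' := (pa h' x').toAlgebra
  have t1 : Module.IsTorsionFree (Polynomial E) L :=
    Module.isTorsionFree_iff_algebraMap_injective.2 i1
  have t2 : Module.IsTorsionFree (Polynomial E') L' :=
    Module.isTorsionFree_iff_algebraMap_injective.2 j1
  have c1 : IsAlgClosure (Polynomial E) L := ⟨isAlgClosed_of hL, i2⟩
  have c2 : IsAlgClosure (Polynomial E') L' := ⟨isAlgClosed_of hL', j2⟩
  refine ⟨IsAlgClosure.equivOfEquiv L L' (Polynomial.mapEquiv σ), fun c => ?_, ?_⟩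
  · have e := IsAlgClosure.equivOfEquiv_algebraMap L L' (Polynomial.mapEquiv σ) (Polynomial.C c)
    have e1 : algebraMap (Polynomial E) L (Polynomial.C c) = Subfield.inclusion h c :=
      Polynomial.eval₂_C _ _
    have e2 : algebraMap (Polynomial E') L' (Polynomial.mapEquiv σ (Polynomial.C c)) =
        Subfield.inclusion h' (σ c) := by
      rw [Polynomial.mapEquiv_apply, Polynomial.map_C]
      exact Polynomial.eval₂_C _ _
    rw [e1, e2] at e
    exact e
  · have e := IsAlgClosure.equivOfEquiv_algebraMap L L' (Polynomial.mapEquiv σ) Polynomial.X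
    have e1 : algebraMap (Polynomial E) L Polynomial.X = x := Polynomial.eval₂_X _ _
    have e2 : algebraMap (Polynomial E') L' (Polynomial.mapEquiv σ Polynomial.X) = x' := by
      rw [Polynomial.mapEquiv_apply, Polynomial.map_X]
      exact Polynomial.eval₂_X _ _
    rw [e1, e2] at e
    exact e

theorem ext_iso {E E' L L' : Subfield ℂ} (h : E ≤ L) (h' : E' ≤ L') (σ : E ≃+* E') (x x' : ℂ)
    (hxL : x ∈ L) (hxL' : x' ∈ L') (hL : ∀ z : ℂ, IsAlgebraic L z → z ∈ L)
    (hL' : ∀ z : ℂ, IsAlgebraic L' z → z ∈ L')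
    (ha : ∀ z ∈ L, IsAlgebraic (Algebra.adjoin E {x}) z)
    (ha' : ∀ z ∈ L', IsAlgebraic (Algebra.adjoin E' {x'}) z)
    (hx : Transcendental E x) (hx' : Transcendental E' x') :
    ∃ τ : L ≃+* L', (∀ (y : L) (c : E), (y : ℂ) = c → (τ y : ℂ) = σ c) ∧
      ∀ y : L, (y : ℂ) = x → (τ y : ℂ) = x' := by
  obtain ⟨y, rfl⟩ : ∃ y : L, (y : ℂ) = x := ⟨⟨x, hxL⟩, rfl⟩
  obtain ⟨y', rfl⟩ : ∃ y : L', (y : ℂ) = x' := ⟨⟨x', hxL'⟩, rfl⟩
  obtain ⟨τ, h1, h2⟩ := ext_iso0 h h' σ y y' hL hL' ha ha' hx hx'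
  refine ⟨τ, fun z c hz => ?_, fun z hz => ?_⟩
  · have e : z = Subfield.inclusion h c := Subtype.ext hz
    rw [e, h1]
    rfl
  · have e : z = y := Subtype.ext hz
    rw [e, h2]

theorem acl_mono {K : Subfield ℂ} {S T : Set ℂ} (h : S ⊆ T) : acl K S ≤ acl K T :=
  fun _ hz => mem_acl_iff_closure.2
    ((AlgebraicIndependent.matroid K ℂ).closure_subset_closure h (mem_acl_iff_closure.1 hz))

/-! ### Transfer of relations -/

section transfer

variable {K : Subfield ℂ} {q : ℕ} {t t' : Fin q → ℂ}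
  {σ : acl K (Set.range (ex t)) ≃+* acl K (Set.range (ex t'))}
  (hK : ∀ a : acl K (Set.range (ex t)), (a : ℂ) ∈ K → (σ a : ℂ) = a)
  (hx : ∀ (a : acl K (Set.range (ex t))) (i : Fin q), (a : ℂ) = t i → (σ a : ℂ) = t' i)
  (he : ∀ (a : acl K (Set.range (ex t))) (i : Fin q), (a : ℂ) = Complex.exp (t i) →
      (σ a : ℂ) = Complex.exp (t' i))

include hK hx he

theorem transfer (g : MvPolynomial (Fin q ⊕ Fin q) K) (hg : aeval (ex t) g = 0) :
    aeval (ex t') g = 0 := by
  let i : K →+* acl K (Set.range (ex t)) := Subfield.inclusion (fun z hz => K_acl hz)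
  let u : Fin q ⊕ Fin q → acl K (Set.range (ex t)) := fun j => ⟨ex t j, S_acl ⟨j, rfl⟩⟩
  have h1 : (acl K (Set.range (ex t))).subtype (eval₂ i u g) = aeval (ex t) g := by
    rw [MvPolynomial.hom_eval₂]
    rfl
  have h2 : eval₂ i u g = 0 := Subtype.ext (h1.trans hg)
  have h3 : (acl K (Set.range (ex t'))).subtype (σ (eval₂ i u g)) = aeval (ex t') g := by
    have e : (acl K (Set.range (ex t'))).subtype (σ (eval₂ i u g)) =
        ((acl K (Set.range (ex t'))).subtype.comp (σ : _ →+* _)) (eval₂ i u g) := rfl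
    rw [e, MvPolynomial.hom_eval₂, MvPolynomial.aeval_def]
    have e1 : (((acl K (Set.range (ex t'))).subtype.comp (σ : _ →+* _)).comp i) =
        algebraMap K ℂ := by
      refine RingHom.ext fun c => ?_
      exact hK (i c) c.2
    have e2 : (fun j => ((acl K (Set.range (ex t'))).subtype.comp (σ : _ →+* _)) (u j)) =
        ex t' := by
      funext j
      rcases j with j | j
      · exact hx (u (Sum.inl j)) j rfl
      · exact he (u (Sum.inr j)) j rfl
    rw [e1]
    exact congrArg (fun v => eval₂ (algebraMap K ℂ) v g) e2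
  rw [h2, map_zero, map_zero] at h3
  exact h3.symm

theorem tr_back (d : ℕ) (h : Tr K (ex t') d) : Tr K (ex t) d := by
  obtain ⟨J, hJ, hi⟩ := h
  refine ⟨J, hJ, ?_⟩
  rw [algebraicIndependent_iff] at hi ⊢
  intro p hp
  refine hi p ?_
  have e1 : aeval (fun j : J => ex t j) p = aeval (ex t) (rename (Subtype.val : J → _) p) := by
    rw [aeval_rename]; rfl
  have e2 : aeval (fun j : J => ex t' j) p = aeval (ex t') (rename (Subtype.val : J → _) p) := by
    rw [aeval_rename]; rfl
  rw [e2]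
  rw [e1] at hp
  exact transfer hK hx he _ hp

end transfer

open scoped IntermediateField.algebraAdjoinAdjoin in
/-- the elements of the larger field are algebraic over the polynomials in `x` -/
theorem alg_ad {K F : Subfield ℂ} {S : Set ℂ} {x : ℂ} (hKF : K ≤ F) (hS : ∀ s ∈ S, s ∈ F ∨ s = x)
    {z : ℂ} (hz : z ∈ acl K S) : IsAlgebraic (Algebra.adjoin F {x}) z := by
  rw [IsFractionRing.isAlgebraic_iff (Algebra.adjoin F {x}) (IntermediateField.adjoin F {x}) ℂ]
  rw [mem_acl] at hz
  have h1 : (IntermediateField.adjoin K S).toSubfield ≤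
      (IntermediateField.adjoin F {x}).toSubfield := by
    refine Subfield.closure_le.2 ?_
    rintro s (⟨c, rfl⟩ | hs)
    · exact (IntermediateField.adjoin F {x}).algebraMap_mem ⟨c, hKF c.2⟩
    · rcases hS s hs with h | h
      · exact (IntermediateField.adjoin F {x}).algebraMap_mem ⟨s, h⟩
      · rw [h]
        exact IntermediateField.mem_adjoin_simple_self F x
  exact alg_mono h1 hz

theorem fin {K : Subfield ℂ} (hK : Str K) {q : ℕ} {t t' : Fin q → ℂ} (hpos : 0 < q)
    (htight : ¬ Tr K (ex t) (q + 2)) (htight' : ¬ Tr K (ex t') (q + 2))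
    (σ : acl K (Set.range (ex t)) ≃+* acl K (Set.range (ex t')))
    (hσ : ∀ a : acl K (Set.range (ex t)), (a : ℂ) ∈ K → (σ a : ℂ) = a) {a a' x x' : ℂ}
    (hI : Ind K (Fin.snoc t a : Fin (q + 1) → ℂ)) (hI' : Ind K (Fin.snoc t' a' : Fin (q + 1) → ℂ))
    (j0 : Fin (q + 1) ⊕ Fin (q + 1)) (hj0 : ex (Fin.snoc t a : Fin (q + 1) → ℂ) j0 = x)
    (hj0' : ex (Fin.snoc t' a' : Fin (q + 1) → ℂ) j0 = x')
    (hc : ∀ j : Fin (q + 1) ⊕ Fin (q + 1), (∃ y : acl K (Set.range (ex t)),
      (y : ℂ) = ex (Fin.snoc t a : Fin (q + 1) → ℂ) j ∧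
      (σ y : ℂ) = ex (Fin.snoc t' a' : Fin (q + 1) → ℂ) j) ∨
      (ex (Fin.snoc t a : Fin (q + 1) → ℂ) j = x ∧
        ex (Fin.snoc t' a' : Fin (q + 1) → ℂ) j = x')) :
    Sta K (Fin.snoc t a : Fin (q + 1) → ℂ) (Fin.snoc t' a' : Fin (q + 1) → ℂ) := by
  -- general facts on one side
  have side : ∀ {t : Fin q → ℂ} {a x : ℂ}, ¬ Tr K (ex t) (q + 2) →
      Ind K (Fin.snoc t a : Fin (q + 1) → ℂ) →
      (∀ j, ex (Fin.snoc t a : Fin (q + 1) → ℂ) j ∈ acl K (Set.range (ex t)) ∨
        ex (Fin.snoc t a : Fin (q + 1) → ℂ) j = x) →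
      x ∉ acl K (Set.range (ex t)) ∧ ¬ Tr K (ex (Fin.snoc t a : Fin (q + 1) → ℂ)) (q + 1 + 2) ∧
      acl K (Set.range (ex t)) ≤ acl K (Set.range (ex (Fin.snoc t a : Fin (q + 1) → ℂ))) := by
    intro t a x ht hI hc
    refine ⟨fun hx => ?_, fun htr => ?_, acl_mono ?_⟩
    · have h1 := hK.tr (q + 1) _ (Nat.succ_pos q) hI
      rw [tr_iff] at h1 ht
      refine ht (le_trans h1 (eRk_le_of_subset ?_))
      rintro _ ⟨j, rfl⟩
      rcases hc j with h | h
      · exact h
      · rw [h]; exact hx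
    · rw [tr_iff] at htr ht
      apply ht
      have h1 : (AlgebraicIndependent.matroid K ℂ).eRk
          (Set.range (ex (Fin.snoc t a : Fin (q + 1) → ℂ))) ≤
          (AlgebraicIndependent.matroid K ℂ).eRk (insert x (Set.range (ex t))) := by
        refine eRk_le_of_subset ?_
        rintro _ ⟨j, rfl⟩
        rcases hc j with h | h
        · exact acl_mono (Set.subset_insert _ _) h
        · rw [h]; exact S_acl (Set.mem_insert _ _)
      have h2 := Matroid.eRk_insert_le_add_one (AlgebraicIndependent.matroid K ℂ) x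
        (Set.range (ex t))
      have h3 := le_trans htr (le_trans h1 h2)
      have h4 : (((q + 2 : ℕ) : ℕ∞)) + 1 ≤
          (AlgebraicIndependent.matroid K ℂ).eRk (Set.range (ex t)) + 1 := by
        refine le_trans (le_of_eq ?_) h3
        push_cast
        ring
      exact (ENat.add_le_add_iff_right (by simp)).1 h4
    · rintro _ ⟨j, rfl⟩
      rcases j with j | j
      · exact ⟨Sum.inl j.castSucc, by simp [ex]⟩
      · exact ⟨Sum.inr j.castSucc, by simp [ex]⟩
  obtain ⟨s1, s2, s3⟩ := side (x := x) htight hI fun j => by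
    rcases hc j with ⟨y, hy, -⟩ | h
    · left; rw [← hy]; exact y.2
    · exact Or.inr h.1
  obtain ⟨s1', s2', s3'⟩ := side (x := x') htight' hI' fun j => by
    rcases hc j with ⟨y, -, hy⟩ | h
    · left; rw [← hy]; exact (σ y).2
    · exact Or.inr h.2
  have hxL : x ∈ acl K (Set.range (ex (Fin.snoc t a : Fin (q + 1) → ℂ))) :=
    hj0 ▸ S_acl ⟨j0, rfl⟩
  have hxL' : x' ∈ acl K (Set.range (ex (Fin.snoc t' a' : Fin (q + 1) → ℂ))) :=
    hj0' ▸ S_acl ⟨j0, rfl⟩
  have hS : ∀ s ∈ Set.range (ex (Fin.snoc t a : Fin (q + 1) → ℂ)),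
      s ∈ acl K (Set.range (ex t)) ∨ s = x := by
    rintro _ ⟨j, rfl⟩
    rcases hc j with ⟨y, hy, -⟩ | h
    · left; rw [← hy]; exact y.2
    · exact Or.inr h.1
  have hS' : ∀ s ∈ Set.range (ex (Fin.snoc t' a' : Fin (q + 1) → ℂ)),
      s ∈ acl K (Set.range (ex t')) ∨ s = x' := by
    rintro _ ⟨j, rfl⟩
    rcases hc j with ⟨y, -, hy⟩ | h
    · left; rw [← hy]; exact (σ y).2
    · exact Or.inr h.2
  have hA : ∀ z ∈ acl K (Set.range (ex (Fin.snoc t a : Fin (q + 1) → ℂ))),
      IsAlgebraic (Algebra.adjoin (acl K (Set.range (ex t))) {x}) z := fun z hz =>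
    alg_ad (fun w hw => K_acl hw) hS hz
  have hA' : ∀ z ∈ acl K (Set.range (ex (Fin.snoc t' a' : Fin (q + 1) → ℂ))),
      IsAlgebraic (Algebra.adjoin (acl K (Set.range (ex t'))) {x'}) z := fun z hz =>
    alg_ad (fun w hw => K_acl hw) hS' hz
  obtain ⟨τ, hτ1, hτ2⟩ := ext_iso s3 s3' σ x x' hxL hxL' (fun z hz => acl_closed hz)
    (fun z hz => acl_closed hz) hA hA' (fun h => s1 (acl_closed h)) (fun h => s1' (acl_closed h))
  have hF : ∀ (y : acl K (Set.range (ex (Fin.snoc t a : Fin (q + 1) → ℂ))))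
      (c : acl K (Set.range (ex t))), (y : ℂ) = c → (τ y : ℂ) = σ c := hτ1
  have hj : ∀ (y : acl K (Set.range (ex (Fin.snoc t a : Fin (q + 1) → ℂ))))
      (j : Fin (q + 1) ⊕ Fin (q + 1)), (y : ℂ) = ex (Fin.snoc t a : Fin (q + 1) → ℂ) j →
      (τ y : ℂ) = ex (Fin.snoc t' a' : Fin (q + 1) → ℂ) j := by
    intro y j h
    rcases hc j with ⟨c, hc1, hc2⟩ | ⟨h1, h2⟩
    · rw [hF y c (h.trans hc1.symm), hc2]
    · rw [hτ2 y (h.trans h1), h2]
  exact ⟨Nat.succ_pos q, hI, hI', s2, τ,
    fun y hy => by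
      rw [hF y ⟨y, K_acl hy⟩ rfl]
      exact hσ _ hy,
    fun y i h => hj y (Sum.inl i) h, fun y i h => hj y (Sum.inr i) h⟩

/-- **STEP** -/
theorem step : S_step := by
  intro K hK q t t' hS a hInd hcase
  obtain ⟨hpos, hind, hind', htight, σ, hσK, hσx, hσe⟩ := hS
  have htight' : ¬ Tr K (ex t') (q + 2) := fun h => htight (tr_back hσK hσx hσe _ h)
  have ht : ∀ i, t i ∈ acl K (Set.range (ex t)) := fun i => S_acl ⟨Sum.inl i, rfl⟩
  have he : ∀ i, Complex.exp (t i) ∈ acl K (Set.range (ex t)) := fun i => S_acl ⟨Sum.inr i, rfl⟩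
  -- an element whose image is in `K` is in `K`
  have hback : ∀ y : acl K (Set.range (ex t)), (σ y : ℂ) ∈ K → (y : ℂ) ∈ K := by
    intro y hy
    have h1 : (σ (⟨(σ y : ℂ), K_acl hy⟩ : acl K (Set.range (ex t))) : ℂ) = (σ y : ℂ) :=
      hσK ⟨(σ y : ℂ), K_acl hy⟩ hy
    have h2 : (⟨(σ y : ℂ), K_acl hy⟩ : acl K (Set.range (ex t))) = y :=
      σ.injective (Subtype.ext h1)
    rw [← h2]
    exact hy
  rcases hcase with ha | ha
  · -- first case
    refine ⟨σ ⟨a, ha⟩, ?_⟩
    have hI' : Ind K (Fin.snoc t' (σ ⟨a, ha⟩ : ℂ) : Fin (q + 1) → ℂ) := by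
      intro m hm
      apply hInd m
      have h1 := hback (∑ i : Fin q, ((m i.castSucc : ℤ) : acl K (Set.range (ex t))) *
        ⟨t i, ht i⟩ + ((m (Fin.last q) : ℤ) : acl K (Set.range (ex t))) * ⟨a, ha⟩) (by
          rw [map_add, map_sum]
          simp only [map_mul, map_intCast]
          push_cast
          rw [Fin.sum_univ_castSucc] at hm
          simp only [Fin.snoc_castSucc, Fin.snoc_last] at hm
          have e : ∀ i : Fin q, (σ ⟨t i, ht i⟩ : ℂ) = t' i := fun i => hσx _ i rfl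
          simp only [e]
          exact hm)
      push_cast at h1
      rw [Fin.sum_univ_castSucc]
      simp only [Fin.snoc_castSucc, Fin.snoc_last]
      exact h1
    refine fin hK hpos htight htight' σ hσK hInd hI' (Sum.inr (Fin.last q)) rfl rfl ?_
    rintro (j | j)
    · left
      refine Fin.lastCases ?_ (fun i => ?_) j
      · exact ⟨⟨a, ha⟩, by simp [ex], by simp [ex]⟩
      · exact ⟨⟨t i, ht i⟩, by simp [ex], by
          rw [hσx _ i rfl]
          simp [ex]⟩
    · refine Fin.lastCases ?_ (fun i => ?_) j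
      · exact Or.inr ⟨rfl, rfl⟩
      · left
        exact ⟨⟨Complex.exp (t i), he i⟩, by simp [ex], by
          rw [hσe _ i rfl]
          simp [ex]⟩
  · -- second case
    have hne : (σ ⟨Complex.exp a, ha⟩ : ℂ) ≠ 0 := by
      intro h
      have h1 : σ ⟨Complex.exp a, ha⟩ = 0 := Subtype.ext h
      have h2 := (map_eq_zero_iff σ σ.injective).1 h1
      exact Complex.exp_ne_zero a (congrArg Subtype.val h2)
    set a' : ℂ := Complex.log (σ ⟨Complex.exp a, ha⟩) with ha'
    have hea' : Complex.exp a' = (σ ⟨Complex.exp a, ha⟩ : ℂ) := Complex.exp_log hne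
    refine ⟨a', ?_⟩
    have expsum : ∀ (m : Fin (q + 1) → ℤ) (t : Fin q → ℂ) (a : ℂ),
        Complex.exp (∑ j, (m j : ℂ) * (Fin.snoc t a : Fin (q + 1) → ℂ) j) =
        (∏ i : Fin q, Complex.exp (t i) ^ m i.castSucc) * Complex.exp a ^ m (Fin.last q) := by
      intro m t a
      rw [Fin.sum_univ_castSucc, Complex.exp_add, Complex.exp_sum]
      simp only [Fin.snoc_castSucc, Fin.snoc_last]
      congr 1
      · exact Finset.prod_congr rfl fun i _ => Complex.exp_int_mul _ _
      · exact Complex.exp_int_mul _ _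
    have hI' : Ind K (Fin.snoc t' a' : Fin (q + 1) → ℂ) := by
      intro m hm
      apply hInd m
      apply hK.log
      have hm' := hK.exp _ hm
      rw [expsum] at hm' ⊢
      let y : acl K (Set.range (ex t)) := (∏ i : Fin q, (⟨Complex.exp (t i), he i⟩ :
        acl K (Set.range (ex t))) ^ m i.castSucc) * ⟨Complex.exp a, ha⟩ ^ m (Fin.last q)
      have e1 : (acl K (Set.range (ex t))).subtype y =
          (∏ i : Fin q, Complex.exp (t i) ^ m i.castSucc) * Complex.exp a ^ m (Fin.last q) := by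
        simp only [y, map_mul, map_prod, map_zpow₀]
        rfl
      have e2 : ((acl K (Set.range (ex t'))).subtype.comp (σ : _ →+* _)) y =
          (∏ i : Fin q, Complex.exp (t' i) ^ m i.castSucc) * Complex.exp a' ^ m (Fin.last q) := by
        simp only [y, map_mul, map_prod, map_zpow₀]
        rw [hea']
        congr 1
        refine Finset.prod_congr rfl fun i _ => ?_
        congr 1
        exact hσe _ i rfl
      have h1 := hback y (by
        have e3 : (σ y : ℂ) =
            (∏ i : Fin q, Complex.exp (t' i) ^ m i.castSucc) * Complex.exp a' ^ m (Fin.last q) :=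
          e2
        rw [e3]
        exact hm')
      have e4 : (y : ℂ) =
          (∏ i : Fin q, Complex.exp (t i) ^ m i.castSucc) * Complex.exp a ^ m (Fin.last q) := e1
      rw [e4] at h1
      exact h1
    refine fin hK hpos htight htight' σ hσK hInd hI' (Sum.inl (Fin.last q)) rfl rfl ?_
    rintro (j | j)
    · refine Fin.lastCases ?_ (fun i => ?_) j
      · exact Or.inr ⟨rfl, rfl⟩
      · left
        exact ⟨⟨t i, ht i⟩, by simp [ex], by
          rw [hσx _ i rfl]
          simp [ex]⟩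
    · left
      refine Fin.lastCases ?_ (fun i => ?_) j
      · exact ⟨⟨Complex.exp a, ha⟩, by simp [ex], by
          rw [← hea']
          simp [ex]⟩
      · exact ⟨⟨Complex.exp (t i), he i⟩, by simp [ex], by
          rw [hσe _ i rfl]
          simp [ex]⟩

end Pool.Agent.H27.QK
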